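import Mathlib
import Pool.Agent.H.MP_a2947a_pr.A

open Filter Topology Real MeasureTheory ProbabilityTheory

namespace Pool.Agent.Results.MP_a2947a_pr.Bounds

theorem result {Ω : Type} [MeasurableSpace Ω] (P : Measure Ω) [IsProbabilityMeasure P]
    (U : (n : ℕ) → Ω → Fin (n + 1)) (hU : ∀ n, Measurable (U n)) (hi : iIndepFun U P)
    (hu : ∀ n k, P.real {ω | U n ω = k} = 1 / (n + 1))
    (X : ℕ → Ω → ℕ) (h0 : ∀ ω, X 0 ω = 1) (hs : ∀ n ω, X (n + 1) ω = X n ω + X (U n ω) ω)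
    (m : ℕ) (hm : 1 ≤ m) :
    (∀ᶠ n : ℕ in atTop, exp (0.3 * m) ≤ log (∫ ω, (X n ω : ℝ) ^ m ∂P) / √n ∧
      log (∫ ω, (X n ω : ℝ) ^ m ∂P) / √n ≤ exp (0.4 * m + 1)) ∧
    ∀ c : ℝ, Tendsto (fun n : ℕ => log (∫ ω, (X n ω : ℝ) ^ m ∂P) / √n) atTop (𝓝 c) →
      0 < c ∧ 0.3 * m ≤ log c ∧ log c ≤ 0.4 * m + 1 :=
  Pool.Agent.H.MP_a2947a_pr.main (P := P) (U := U) (X := X) ⟨hU, hi, hu, h0, hs⟩ hm

end Pool.Agent.Results.MP_a2947a_pr.Bounds
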